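import Pool.Agent.helper90.IV.Spec

set_option autoImplicit false

open scoped BigOperators

namespace Pool.Agent.helper37.IV

open Pool.Agent.IV Pool.Agent.helper23.TH Pool.Agent.KS

open Classical in
theorem HEA (hHV : HV_stmt) : HEA_stmt := by
  intro s h pj q hs
  obtain ⟨Ch₀, hCh₀⟩ := hHV s h pj q hs
  refine ⟨Ch₀, ?_⟩
  intro Ch hCh κ ε hκ hε
  have hκ0 : 0 < κ := by linarith
  obtain ⟨L', hL', hV⟩ := hCh₀ Ch hCh (ε / κ ^ s) (by positivity)
  refine ⟨L', ?_⟩
  intro V K _ A lam d hPr hn hd hdeg hdegκ hK hhst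
  have hd0 : 0 < d := by linarith
  have hnR : (0 : ℝ) < Fintype.card V := by exact_mod_cast hn
  -- a vertex with many heavy tuples
  obtain ⟨z, hz⟩ : ∃ z : V, ε * d ^ s ≤
      ((Finset.univ.filter fun a : Fin s → V => (∀ k, A z (a k)) ∧ Ch ≤ cn A a).card : ℝ) := by
    by_contra hcon
    push Not at hcon
    have hne : (Finset.univ : Finset V).Nonempty := by
      rw [← Finset.card_pos, Finset.card_univ]
      exact hn
    have h1 : ∑ z : V, ((Finset.univ.filter fun a : Fin s → V =>
        (∀ k, A z (a k)) ∧ Ch ≤ cn A a).card : ℝ) < ∑ _z : V, ε * d ^ s :=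
      Finset.sum_lt_sum_of_nonempty hne fun z _ => hcon z
    rw [Finset.sum_const, Finset.card_univ, nsmul_eq_mul] at h1
    have h2 : (hst A Ch s : ℝ) = ∑ z : V, ((Finset.univ.filter fun a : Fin s → V =>
        (∀ k, A z (a k)) ∧ Ch ≤ cn A a).card : ℝ) := by
      unfold hst
      rw [Nat.cast_sum]
    rw [← h2] at h1
    have h3 : (Fintype.card V : ℝ) * (ε * d ^ s) = ε * Fintype.card V * d ^ s := by ring
    linarith
  -- the subrelation
  have hceil : ∀ x : V, ⌈d⌉₊ ≤ (Finset.univ.filter fun w => A x w).card := by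
    intro x
    rw [Nat.ceil_le]
    exact hdeg x
  choose N hNsub hNcard using fun x : V => Finset.exists_subset_card_eq (hceil x)
  set M : Finset V := Finset.univ.filter fun w => A z w with hM
  have hMcard : (M.card : ℝ) = (deg A z : ℝ) := rfl
  have hMd : d ≤ (M.card : ℝ) := by
    rw [hMcard]
    exact hdeg z
  have hMκ : (M.card : ℝ) ≤ κ * d := by
    rw [hMcard]
    exact hdegκ z
  have hMne : M.Nonempty := by
    rw [← Finset.card_pos]
    have : (0 : ℝ) < M.card := by linarith
    exact_mod_cast this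
  have hD : d ≤ (⌈d⌉₊ : ℝ) := Nat.le_ceil d
  have hdn : d ≤ (Fintype.card V : ℝ) := by
    refine hMd.trans ?_
    exact_mod_cast Finset.card_le_univ M
  refine hV V K A (fun x v => v ∈ N x) lam M Finset.univ ⌈d⌉₊ hPr ?_ hMne ?_ ?_ ?_ ?_
  · intro a b hb
    have := hNsub a hb
    simpa using this
  · intro x _
    unfold degY
    rw [← hNcard x]
    congr 1
    ext v
    simp
  · have h1 : (Finset.univ.filter fun a : Fin s → V => (∀ k, a k ∈ M) ∧ Ch ≤ cn A a)
        = (Finset.univ.filter fun a : Fin s → V => (∀ k, A z (a k)) ∧ Ch ≤ cn A a) := by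
      ext a
      simp [hM]
    rw [h1]
    refine le_trans ?_ hz
    have h2 : (M.card : ℝ) ^ s ≤ (κ * d) ^ s := pow_le_pow_left₀ (by positivity) hMκ s
    calc ε / κ ^ s * (M.card : ℝ) ^ s ≤ ε / κ ^ s * (κ * d) ^ s :=
          mul_le_mul_of_nonneg_left h2 (by positivity)
      _ = ε * d ^ s := by
          rw [mul_pow]
          field_simp
  · rw [Finset.card_univ]
    refine hK.trans ?_
    have h3 : s - 1 = (s - 2) + 1 := by omega
    rw [h3, pow_succ, mul_comm]
    exact mul_le_mul hMd (pow_le_pow_left₀ hd0.le hD _) (by positivity) (by positivity)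
  · refine le_trans ?_ hD
    have h3 : s - 1 = (s - 2) + 1 := by omega
    have h4 : d ^ (s - 1) ≤ d * (Fintype.card V : ℝ) ^ (s - 2) := by
      rw [h3, pow_succ, mul_comm]
      exact mul_le_mul_of_nonneg_left (pow_le_pow_left₀ hd0.le hdn _) hd0.le
    have h5 := hK.trans h4
    exact le_of_mul_le_mul_right h5 (by positivity)

end Pool.Agent.helper37.IV
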