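import Pool.Agent.helper90.IV.Spec

set_option autoImplicit false

open scoped BigOperators

namespace Pool.Agent.helper37.IV

open Pool.Agent.IV Pool.Agent.helper23.TH Pool.Agent.KS

open Classical in
theorem STA_tkW_empty {I V K : Type} [Fintype I] (T : Tr I) (lam : Fin 2 → V → V → K)
    (y : T.R → V) (x : I → V) : tkW T lam ∅ y x = ∅ := by
  have h1 : ∀ e : T.Ed, ¬ T.tc ∅ e := by
    intro e
    rcases e with e | r
    · simp [Tr.tc]
    · simp [Tr.tc]
  unfold tkW
  rw [Finset.image_empty, Finset.empty_union, Finset.image_eq_empty, Finset.filter_eq_empty_iff]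
  intro p _
  exact h1 p.2

open Classical in
theorem STA_rich {I V K : Type} [Fintype I] [Fintype V] (T : Tr I) (A : V → V → Prop)
    (lam : Fin 2 → V → V → K) (gh : T.R → Option I) (P : ℕ) (x : I → V) (y : T.R → V)
    (h : T.hom A x y) : Rich T A lam gh ∅ P x y := by
  refine ⟨fun _ => x, fun _ => ⟨fun _ _ => rfl, h, ?_, ?_, ?_⟩, ?_⟩
  · intro w hw
    simp at hw
  · intro l e e' he
    exfalso
    rcases e with e | r
    · simp [Tr.tc] at he
    · simp [Tr.tc] at he
  · rw [STA_tkW_empty]
    exact Finset.disjoint_empty_left _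
  · intro j j' _
    rw [STA_tkW_empty]
    exact Finset.disjoint_empty_left _

open Classical in
theorem STA (hNI : NI_stmt) : STA_stmt := by
  intro I _ T s P κ hκ
  obtain ⟨K₁, hK₁⟩ := hNI I T s κ (1 / 2) hκ (by norm_num)
  refine ⟨K₁, ?_⟩
  intro V K _ A lam Ch d KE ε K₀ hE hK
  have hgv : GV T (fun _ => none) := by
    intro r w hr
    simp at hr
  have h1 := hK₁ V K A lam Ch d KE ε K₀ hE hK (fun _ => none) hgv
  refine ⟨⟨hgv, ?_, ?_, ?_, ?_⟩, ?_⟩
  · intro r w hr
    simp at hr
  · intro r r' w hr
    simp at hr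
  · intro u _ w hw
    simp at hw
  · intro w hw
    simp at hw
  · have h2 : ((Hm T A fun _ => none).filter fun f => Nice T lam (fun _ => none) f.1 f.2 ∧
        Rich T A lam (fun _ => none) ∅ P f.1 f.2)
        = (Hm T A fun _ => none).filter fun f => Nice T lam (fun _ => none) f.1 f.2 := by
      apply Finset.filter_congr
      intro f hf
      have hf' : T.hom A f.1 f.2 := by
        unfold Hm at hf
        exact (Finset.mem_filter.1 hf).2.1
      exact ⟨fun h => h.1, fun h => ⟨h, STA_rich T A lam _ P f.1 f.2 hf'⟩⟩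
    rw [h2]
    have h3 := Finset.card_filter_add_card_filter_not (s := Hm T A fun _ => none)
      (fun f => Nice T lam (fun _ => none) f.1 f.2)
    have h4 : (((Hm T A fun _ => none).filter fun f => Nice T lam (fun _ => none) f.1 f.2).card : ℝ)
        + (((Hm T A fun _ => none).filter fun f => ¬ Nice T lam (fun _ => none) f.1 f.2).card : ℝ)
        = ((Hm T A fun _ => none).card : ℝ) := by exact_mod_cast h3
    linarith

end Pool.Agent.helper37.IV
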